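import Pool.Agent.Helper87.LS.Rec

/-!
# MP_e98778_an (full), module H4: edge average minus triangle average

For a Lipschitz function on a triangle the average over an edge and the average over the triangle
differ by at most `L / ar * ∫ ‖∇F‖`.
-/

set_option autoImplicit false

open MeasureTheory Set Pool.Agent.Helper87.LS

namespace Pool.Agent.Helper49.H4

noncomputable section

/-! ### One variable -/

/-- Integration by parts against `σ²`. -/
theorem one_dim {g : ℝ → ℝ} {C : NNReal} (hg : LipschitzWith C g) :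
    ∫ σ in (0 : ℝ)..1, 2 * σ * (g 1 - g σ) = ∫ σ in (0 : ℝ)..1, σ ^ 2 * deriv g σ := by
  have hgc : Continuous g := hg.continuous
  have hac : AbsolutelyContinuousOnInterval g 0 1 :=
    (hg.lipschitzOnWith (s := uIcc 0 1)).absolutelyContinuousOnInterval
  have hgi : IntervalIntegrable (fun σ => deriv g σ) volume 0 1 := hac.intervalIntegrable_deriv
  have h1 : ∫ σ in (0 : ℝ)..1, deriv g σ * σ ^ 2 + (g σ) * (2 * σ) = g 1 * 1 ^ 2 - g 0 * 0 ^ 2 := by
    have hac2 : AbsolutelyContinuousOnInterval (fun σ : ℝ => σ ^ 2) 0 1 := by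
      have hcd : ContDiff ℝ 1 (fun σ : ℝ => σ ^ 2) := by fun_prop
      obtain ⟨K, hK⟩ := hcd.contDiffOn.exists_lipschitzOnWith (by norm_num) (convex_Icc (0:ℝ) 1)
        isCompact_Icc
      refine LipschitzOnWith.absolutelyContinuousOnInterval (K := K) ?_
      rwa [uIcc_of_le zero_le_one]
    have hprod := hac.fun_mul hac2
    rw [← hprod.integral_deriv_eq_sub]
    refine intervalIntegral.integral_congr_ae ?_
    have hd : ∀ᵐ x, DifferentiableAt ℝ g x := hg.ae_differentiableAt
    filter_upwards [hd] with x hx _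
    have h2 : HasDerivAt (fun σ : ℝ => σ ^ 2) (2 * x) x := by
      simpa using hasDerivAt_pow 2 x
    have := (hx.hasDerivAt.mul h2).deriv
    simp only [Pi.mul_def] at this
    rw [this]
  have h2 : IntervalIntegrable (fun σ : ℝ => deriv g σ * σ ^ 2) volume 0 1 :=
    hgi.mul_continuousOn (by fun_prop)
  have h3 : IntervalIntegrable (fun σ : ℝ => g σ * (2 * σ)) volume 0 1 :=
    Continuous.intervalIntegrable (by fun_prop) _ _
  rw [intervalIntegral.integral_add h2 h3] at h1
  have h4 : ∫ σ in (0 : ℝ)..1, 2 * σ * (g 1 - g σ)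
      = (∫ σ in (0 : ℝ)..1, 2 * σ * g 1) - ∫ σ in (0 : ℝ)..1, g σ * (2 * σ) := by
    rw [← intervalIntegral.integral_sub]
    · congr 1; ext σ; ring
    · exact Continuous.intervalIntegrable (by fun_prop) _ _
    · exact h3
  have h5 : ∫ σ in (0 : ℝ)..1, 2 * σ * g 1 = g 1 := by
    rw [intervalIntegral.integral_mul_const, intervalIntegral.integral_const_mul, integral_id]
    ring
  rw [h4, h5]
  have h6 : ∫ σ in (0 : ℝ)..1, σ ^ 2 * deriv g σ = ∫ σ in (0 : ℝ)..1, deriv g σ * σ ^ 2 := by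
    congr 1; ext σ; ring
  rw [h6]
  linarith

/-! ### The coordinates `(σ, t) ↦ A + σ (t v - A)` of the triangle `0, v, A` -/

/-- The open square. -/
def Sq : Set ℂ := {z | 0 < z.re ∧ z.re < 1 ∧ 0 < z.im ∧ z.im < 1}

/-- The coordinates. -/
def phi (v A z : ℂ) : ℂ := A + (z.re : ℂ) * ((z.im : ℂ) * v - A)

/-- The open triangle `0, v, A`. -/
def OpT (v A : ℂ) : Set ℂ := {z | 0 < cr v z ∧ 0 < cr (A - v) (z - v) ∧ 0 < cr (-A) z}

/-- The derivative of the coordinates. -/
def dphi (v A z : ℂ) : ℂ →L[ℝ] ℂ :=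
  (Complex.reCLM).smulRight ((z.im : ℂ) * v - A) + (Complex.imCLM).smulRight ((z.re : ℂ) * v)

theorem dphi_apply (v A z u : ℂ) :
    dphi v A z u = (u.re : ℂ) * ((z.im : ℂ) * v - A) + (u.im : ℂ) * ((z.re : ℂ) * v) := by
  simp [dphi]

theorem hasFDerivAt_phi (v A z : ℂ) : HasFDerivAt (phi v A) (dphi v A z) z := by
  have h1 : HasFDerivAt (fun z : ℂ => (z.re : ℂ)) (Complex.ofRealCLM.comp Complex.reCLM) z :=
    (Complex.ofRealCLM.comp Complex.reCLM).hasFDerivAt
  have h2 : HasFDerivAt (fun z : ℂ => (z.im : ℂ)) (Complex.ofRealCLM.comp Complex.imCLM) z :=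
    (Complex.ofRealCLM.comp Complex.imCLM).hasFDerivAt
  have h3 := h1.mul ((h2.mul_const v).sub_const A)
  have h4 := h3.const_add A
  refine h4.congr_fderiv ?_
  ext u
  simp [dphi_apply]
  ring

theorem det_dphi (v A z : ℂ) : (dphi v A z).det = z.re * cr v A := by
  rw [ContinuousLinearMap.det, det_eq_cr97]
  simp only [ContinuousLinearMap.coe_coe, dphi_apply]
  simp only [cr, Complex.one_re, Complex.one_im, Complex.I_re, Complex.I_im]
  simp
  ring

theorem cr1 (v A z : ℂ) : cr v (phi v A z) = (1 - z.re) * cr v A := by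
  simp only [phi, cr]
  simp
  ring

theorem cr3 (v A z : ℂ) : cr (-A) (phi v A z) = z.re * z.im * cr v A := by
  simp only [phi, cr]
  simp
  ring

theorem cr2 (v A z : ℂ) : cr (A - v) (phi v A z - v) = z.re * (1 - z.im) * cr v A := by
  simp only [phi, cr]
  simp
  ring

theorem injOn_phi {v A : ℂ} (h : 0 < cr v A) : InjOn (phi v A) Sq := by
  intro z hz w hw hzw
  have h1 := congrArg (cr v) hzw
  rw [cr1, cr1] at h1
  have h2 := congrArg (cr (-A)) hzw
  rw [cr3, cr3] at h2
  have h3 : z.re = w.re := by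
    have := mul_right_cancel₀ h.ne' h1
    linarith
  have h4 : z.im = w.im := by
    have h5 := mul_right_cancel₀ h.ne' h2
    rw [h3] at h5
    exact mul_left_cancel₀ hw.1.ne' h5
  exact Complex.ext h3 h4

theorem image_phi {v A : ℂ} (h : 0 < cr v A) : phi v A '' Sq = OpT v A := by
  ext z
  constructor
  · rintro ⟨w, ⟨h1, h2, h3, h4⟩, rfl⟩
    refine ⟨?_, ?_, ?_⟩
    · rw [cr1]; exact mul_pos (by linarith) h
    · rw [cr2]; exact mul_pos (mul_pos h1 (by linarith)) h
    · rw [cr3]; exact mul_pos (mul_pos h1 h3) h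
  · rintro ⟨h1, h2, h3⟩
    have hsum : cr v z + cr (A - v) (z - v) + cr (-A) z = cr v A := by
      simp only [cr]; simp; ring
    have hσ : 0 < 1 - cr v z / cr v A := by
      rw [sub_pos, div_lt_one h]; linarith
    have hσ2 : (1 - cr v z / cr v A) * cr v A = cr v A - cr v z := by
      field_simp
    have hpos : 0 < (1 - cr v z / cr v A) * cr v A := mul_pos hσ h
    refine ⟨⟨1 - cr v z / cr v A, cr (-A) z / ((1 - cr v z / cr v A) * cr v A)⟩,
      ⟨hσ, ?_, ?_, ?_⟩, ?_⟩
    · have := div_pos h1 h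
      simp only; linarith
    · exact div_pos h3 hpos
    · simp only
      rw [div_lt_one hpos, hσ2]; linarith
    · have e1 : cr v (phi v A ⟨1 - cr v z / cr v A,
          cr (-A) z / ((1 - cr v z / cr v A) * cr v A)⟩) = cr v z := by
        rw [cr1]; simp only; field_simp; ring
      have e2 : cr (-A) (phi v A ⟨1 - cr v z / cr v A,
          cr (-A) z / ((1 - cr v z / cr v A) * cr v A)⟩) = cr (-A) z := by
        rw [cr3]; simp only
        rw [mul_assoc, mul_comm, mul_assoc]
        have h7 : cr v A * (1 - cr v z / cr v A) = (1 - cr v z / cr v A) * cr v A := mul_comm _ _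
        rw [h7, div_mul_cancel₀ _ hpos.ne']
      have e3 := Surf.cr_solve46 (u := v) (v := -A) (w := phi v A ⟨1 - cr v z / cr v A,
          cr (-A) z / ((1 - cr v z / cr v A) * cr v A)⟩ - z) (by
            have : cr v (-A) = - cr v A := by simp only [cr]; simp; ring
            rw [this]; exact neg_ne_zero.2 h.ne') (by rw [cr_sub_right, e1, sub_self])
          (by rw [cr_sub_right, e2, sub_self])
      exact sub_eq_zero.1 e3

/-! ### Integrals -/

/-- `z ↦ (im z, re z)`. -/
def eqv : ℂ ≃ᵐ ℝ × ℝ := Complex.measurableEquivRealProd.trans MeasurableEquiv.prodComm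

theorem eqv_apply (z : ℂ) : eqv z = (z.im, z.re) := rfl

theorem eqv_symm_apply (p : ℝ × ℝ) : eqv.symm p = ⟨p.2, p.1⟩ := rfl

/-- The unit interval with Lebesgue measure. -/
def mI : Measure ℝ := volume.restrict (Ioo 0 1)

instance : IsFiniteMeasure mI := by unfold mI; infer_instance

theorem Sq_eq : Sq = eqv ⁻¹' (Ioo (0 : ℝ) 1 ×ˢ Ioo (0 : ℝ) 1) := by
  ext z
  simp only [Sq, mem_ofPred_eq, mem_preimage, eqv_apply, mem_prod, mem_Ioo]
  tauto

theorem measurableSet_Sq : MeasurableSet Sq := by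
  rw [Sq_eq]
  exact eqv.measurable (measurableSet_Ioo.prod measurableSet_Ioo)

theorem mp_eqv : MeasurePreserving eqv (volume.restrict Sq) (mI.prod mI) := by
  have h : MeasurePreserving eqv (volume : Measure ℂ) ((volume : Measure ℝ).prod volume) :=
    Complex.volume_preserving_equiv_real_prod.trans Measure.measurePreserving_swap
  have h2 := h.restrict_preimage (measurableSet_Ioo (a := (0 : ℝ)) (b := 1) |>.prod
    (measurableSet_Ioo (a := (0 : ℝ)) (b := 1)))
  rw [← Sq_eq, ← Measure.prod_restrict] at h2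
  exact h2

theorem integrable_symm {G : ℂ → ℝ} (hG : IntegrableOn G Sq) :
    Integrable (fun p : ℝ × ℝ => G ⟨p.2, p.1⟩) (mI.prod mI) := by
  have h := (mp_eqv.integrable_comp_emb eqv.measurableEmbedding
    (g := fun p : ℝ × ℝ => G ⟨p.2, p.1⟩)).1
  apply h
  exact hG

theorem sq_fubini {G : ℂ → ℝ} (hG : IntegrableOn G Sq) :
    ∫ z in Sq, G z = ∫ t, ∫ σ, G ⟨σ, t⟩ ∂mI ∂mI := by
  have h := mp_eqv.integral_comp eqv.measurableEmbedding (fun p : ℝ × ℝ => G ⟨p.2, p.1⟩)
  have h2 : ∫ z in Sq, G z = ∫ z in Sq, (fun p : ℝ × ℝ => G ⟨p.2, p.1⟩) (eqv z) := rfl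
  rw [h2, h, integral_prod _ (integrable_symm hG)]

theorem sq_ae {p : ℂ → Prop} (h : ∀ᵐ z ∂(volume.restrict Sq), p z) :
    ∀ᵐ t ∂mI, ∀ᵐ σ ∂mI, p ⟨σ, t⟩ := by
  have h2 : ∀ᵐ q ∂(mI.prod mI), p (eqv.symm q) := by
    have h3 : MeasurePreserving eqv.symm (mI.prod mI) (volume.restrict Sq) :=
      mp_eqv.symm
    exact h3.quasiMeasurePreserving.ae h
  exact Measure.ae_ae_of_ae_prod h2

theorem int_tri {v A : ℂ} (h : 0 < cr v A) (F : ℂ → ℝ) :
    ∫ z in OpT v A, F z = cr v A * ∫ z in Sq, z.re * F (phi v A z) := by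
  rw [← image_phi h, integral_image_eq_integral_abs_det_fderiv_smul volume measurableSet_Sq
    (fun z _ => (hasFDerivAt_phi v A z).hasFDerivWithinAt) (injOn_phi h), ← integral_const_mul]
  refine setIntegral_congr_fun measurableSet_Sq fun z hz => ?_
  simp only [det_dphi, smul_eq_mul]
  rw [abs_of_pos (mul_pos hz.1 h)]
  ring

theorem ae_phi {v A : ℂ} (h : 0 < cr v A) {p : ℂ → Prop} (hp : ∀ᵐ z : ℂ, p z) :
    ∀ᵐ z ∂(volume.restrict Sq), p (phi v A z) := by
  obtain ⟨N, hN1, hN2, hN3⟩ := exists_measurable_superset_of_null hp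
  have h1 := lintegral_image_eq_lintegral_abs_det_fderiv_mul volume measurableSet_Sq
    (fun z _ => (hasFDerivAt_phi v A z).hasFDerivWithinAt) (injOn_phi h)
    (N.indicator fun _ => 1)
  have h2 : ∫⁻ x in phi v A '' Sq, N.indicator (fun _ => (1 : ENNReal)) x = 0 := by
    rw [lintegral_indicator hN2]
    refine le_antisymm ?_ zero_le
    calc ∫⁻ _ in N, (1 : ENNReal) ∂(volume.restrict (phi v A '' Sq))
        = (volume.restrict (phi v A '' Sq)) N := by simp
      _ ≤ volume N := Measure.restrict_apply_le _ _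
      _ = 0 := hN3
  rw [h2] at h1
  have hcont : Continuous (phi v A) := by
    unfold phi
    fun_prop
  have h3 := (lintegral_eq_zero_iff (by
    refine Measurable.mul ?_ ?_
    · simp only [det_dphi]
      fun_prop
    · exact (measurable_const.indicator hN2).comp hcont.measurable)).1 h1.symm
  filter_upwards [h3, ae_restrict_mem measurableSet_Sq] with z hz hzS
  by_contra hc
  have hzN : phi v A z ∈ N := hN1 hc
  simp only [Pi.zero_apply, mul_eq_zero, det_dphi, ENNReal.ofReal_eq_zero] at hz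
  rw [indicator_of_mem hzN] at hz
  rcases hz with hz | hz
  · rw [abs_of_pos (mul_pos hzS.1 h)] at hz
    exact absurd (mul_pos hzS.1 h) (not_lt.2 hz)
  · exact one_ne_zero hz

/-- Edge average minus triangle average, for globally Lipschitz functions. -/
theorem edge_tri {v A : ℂ} (h : 0 < cr v A) {F : ℂ → ℝ} {C : NNReal} (hF : LipschitzWith C F)
    {L : ℝ} (hL1 : ‖A‖ ≤ L) (hL2 : ‖v - A‖ ≤ L) :
    |(∫ t, F (t * v) ∂mI) - 2 / cr v A * ∫ z in OpT v A, F z| ≤
      L / cr v A * ∫ z in OpT v A, ‖fderiv ℝ F z‖ := by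
  have hFc := hF.continuous
  have hbd : ∀ z, ‖fderiv ℝ F z‖ ≤ C := fun z => norm_fderiv_le_of_lipschitz ℝ hF
  have hL0 : 0 ≤ L := (norm_nonneg _).trans hL1
  have hphi : Continuous (phi v A) := by unfold phi; fun_prop
  have hSfin : volume Sq < ⊤ := by
    have h1 := mp_eqv.measure_preimage (s := univ) MeasurableSet.univ.nullMeasurableSet
    rw [preimage_univ, Measure.restrict_apply_univ] at h1
    rw [h1]
    exact measure_lt_top _ _
  have : IsFiniteMeasure (volume.restrict Sq) := ⟨by rw [Measure.restrict_apply_univ]; exact hSfin⟩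
  -- integrability on the square
  have hI1 : IntegrableOn (fun z : ℂ => z.re * F (phi v A z)) Sq := by
    have hc : Continuous fun z : ℂ => z.re * F (phi v A z) := by fun_prop
    have hK : IsCompact (closure Sq) := by
      refine Metric.isCompact_of_isClosed_isBounded isClosed_closure ?_
      refine Bornology.IsBounded.closure ?_
      refine (Metric.isBounded_iff_subset_ball (0 : ℂ)).2 ⟨3, fun z hz => ?_⟩
      rw [mem_ball_zero_iff]
      calc ‖z‖ ≤ |z.re| + |z.im| := Complex.norm_le_abs_re_add_abs_im z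
        _ < 3 := by
          rw [abs_of_pos hz.1, abs_of_pos hz.2.2.1]
          linarith [hz.2.1, hz.2.2.2]
    exact (hc.continuousOn.integrableOn_compact hK).mono_set subset_closure
  have hI2 : IntegrableOn (fun z : ℂ => z.re * ‖fderiv ℝ F (phi v A z)‖) Sq := by
    refine Measure.integrableOn_of_bounded (M := (C : ℝ)) hSfin.ne ?_ ?_
    · refine Measurable.aestronglyMeasurable ?_
      exact Complex.measurable_re.mul
        (((measurable_fderiv ℝ F).norm).comp hphi.measurable)
    · filter_upwards [ae_restrict_mem measurableSet_Sq] with z hz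
      rw [norm_mul, norm_norm, Real.norm_of_nonneg hz.1.le]
      calc z.re * ‖fderiv ℝ F (phi v A z)‖ ≤ 1 * C :=
            mul_le_mul hz.2.1.le (hbd _) (norm_nonneg _) zero_le_one
        _ = C := one_mul _
  rw [int_tri h F, int_tri h (fun z => ‖fderiv ℝ F z‖)]
  have e1 : 2 / cr v A * (cr v A * ∫ z in Sq, z.re * F (phi v A z))
      = 2 * ∫ z in Sq, z.re * F (phi v A z) := by
    field_simp
  have e2 : L / cr v A * (cr v A * ∫ z in Sq, z.re * ‖fderiv ℝ F (phi v A z)‖)
      = L * ∫ z in Sq, z.re * ‖fderiv ℝ F (phi v A z)‖ := by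
    field_simp
  rw [e1, e2, sq_fubini hI1, sq_fubini hI2, ← integral_const_mul, ← integral_const_mul]
  have hJ1 := integrable_symm hI1
  have hJ2 := integrable_symm hI2
  have hE : Integrable (fun t : ℝ => F (t * v)) mI := by
    have hc : Continuous fun t : ℝ => F (t * v) := by fun_prop
    exact (hc.continuousOn.integrableOn_compact (isCompact_Icc (a := (0:ℝ)) (b := 1))).mono_set
      Ioo_subset_Icc_self
  rw [← integral_sub hE (hJ1.integral_prod_left.const_mul 2), ← Real.norm_eq_abs]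
  refine (norm_integral_le_integral_norm (μ := mI) _).trans ?_
  refine integral_mono_ae ?_ ?_ ?_
  · exact (hE.sub (hJ1.integral_prod_left.const_mul 2)).norm
  · exact hJ2.integral_prod_left.const_mul L
  have hd := sq_ae (ae_phi h hF.ae_differentiableAt)
  have hmem : ∀ᵐ t ∂mI, t ∈ Ioo (0 : ℝ) 1 := ae_restrict_mem measurableSet_Ioo
  filter_upwards [hd, hmem, hJ1.prod_right_ae, hJ2.prod_right_ae] with t ht htm hi1 hi2
  -- the one-dimensional estimate
  set g : ℝ → ℝ := fun σ => F (A + (σ : ℂ) * ((t : ℂ) * v - A)) with hg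
  have hgl : LipschitzWith (C * ‖(t : ℂ) * v - A‖₊) g := by
    refine hF.comp (LipschitzWith.of_dist_le_mul fun x y => ?_)
    rw [dist_add_left, dist_eq_norm, ← sub_mul, norm_mul, ← Complex.ofReal_sub,
      Complex.norm_real, dist_eq_norm, mul_comm, coe_nnnorm]
  have h1d := one_dim hgl
  have hto : ∀ f : ℝ → ℝ, ∫ σ in (0 : ℝ)..1, f σ = ∫ σ, f σ ∂mI := by
    intro f
    rw [intervalIntegral.integral_of_le zero_le_one, integral_Ioc_eq_integral_Ioo]
    rfl
  rw [hto, hto] at h1d
  have hg1 : g 1 = F (t * v) := by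
    simp only [hg]; congr 1; push_cast; ring
  have hgphi : ∀ σ : ℝ, g σ = F (phi v A ⟨σ, t⟩) := fun σ => rfl
  have hlhs : ∫ σ, 2 * σ * (g 1 - g σ) ∂mI = F (t * v) - 2 * ∫ σ, σ * F (phi v A ⟨σ, t⟩) ∂mI := by
    have h5 : ∫ σ, 2 * σ * g 1 ∂mI = g 1 := by
      rw [← hto, intervalIntegral.integral_mul_const, intervalIntegral.integral_const_mul,
        integral_id]
      ring
    have h6 : Integrable (fun σ : ℝ => 2 * σ * g 1) mI := by
      have hc : Continuous fun σ : ℝ => 2 * σ * g 1 := by fun_prop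
      exact (hc.continuousOn.integrableOn_compact (isCompact_Icc (a := (0:ℝ)) (b := 1))).mono_set
        Ioo_subset_Icc_self
    have h7 : ∫ σ, 2 * σ * (g 1 - g σ) ∂mI
        = ∫ σ, (2 * σ * g 1 - 2 * (σ * F (phi v A ⟨σ, t⟩))) ∂mI := by
      congr 1; ext σ; rw [hgphi σ]; ring
    rw [h7, integral_sub h6 (hi1.const_mul 2), h5, integral_const_mul, hg1]
  rw [← hlhs, h1d]
  refine (norm_integral_le_integral_norm (μ := mI) _).trans ?_
  rw [← integral_const_mul]
  have hmemσ : ∀ᵐ σ ∂mI, σ ∈ Ioo (0 : ℝ) 1 := ae_restrict_mem measurableSet_Ioo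
  have hnorm : ‖(t : ℂ) * v - A‖ ≤ L := by
    have h8 : (t : ℂ) * v - A = (t : ℂ) * (v - A) + ((1 - t : ℝ) : ℂ) * (-A) := by
      push_cast; ring
    rw [h8]
    calc ‖(t : ℂ) * (v - A) + ((1 - t : ℝ) : ℂ) * (-A)‖
        ≤ ‖(t : ℂ) * (v - A)‖ + ‖((1 - t : ℝ) : ℂ) * (-A)‖ := norm_add_le _ _
      _ = t * ‖v - A‖ + (1 - t) * ‖A‖ := by
          rw [norm_mul, norm_mul, Complex.norm_real, Complex.norm_real, norm_neg,
            Real.norm_of_nonneg htm.1.le, Real.norm_of_nonneg (by linarith [htm.2])]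
      _ ≤ t * L + (1 - t) * L := by
          have := htm.1.le
          have h9 : 0 ≤ 1 - t := by linarith [htm.2]
          gcongr
      _ = L := by ring
  have hbound : ∀ᵐ σ ∂mI, ‖σ ^ 2 * deriv g σ‖ ≤ L * (σ * ‖fderiv ℝ F (phi v A ⟨σ, t⟩)‖) := by
    filter_upwards [ht, hmemσ] with σ hσ hσm
    have hline : HasDerivAt (fun σ : ℝ => A + (σ : ℂ) * ((t : ℂ) * v - A)) ((t : ℂ) * v - A) σ := by
      have h10 : HasDerivAt (fun σ : ℝ => (σ : ℂ)) 1 σ := by
        simpa using (hasDerivAt_id σ).ofReal_comp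
      simpa using (h10.mul_const ((t : ℂ) * v - A)).const_add A
    have hder : HasDerivAt g (fderiv ℝ F (phi v A ⟨σ, t⟩) ((t : ℂ) * v - A)) σ := by
      have h11 : HasFDerivAt F (fderiv ℝ F (phi v A ⟨σ, t⟩))
          (A + (σ : ℂ) * ((t : ℂ) * v - A)) := hσ.hasFDerivAt
      exact h11.comp_hasDerivAt σ hline
    rw [hder.deriv, norm_mul, norm_pow, Real.norm_of_nonneg hσm.1.le]
    calc σ ^ 2 * ‖fderiv ℝ F (phi v A ⟨σ, t⟩) ((t : ℂ) * v - A)‖
        ≤ σ * (‖fderiv ℝ F (phi v A ⟨σ, t⟩)‖ * L) := by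
          refine mul_le_mul ?_ ?_ (norm_nonneg _) hσm.1.le
          · nlinarith [hσm.1, hσm.2]
          · exact (ContinuousLinearMap.le_opNorm _ _).trans
              (mul_le_mul_of_nonneg_left hnorm (norm_nonneg _))
      _ = L * (σ * ‖fderiv ℝ F (phi v A ⟨σ, t⟩)‖) := by ring
  refine integral_mono_ae ?_ (hi2.const_mul L) hbound
  refine Integrable.mono' (hi2.const_mul L) ?_ ?_
  · refine Measurable.aestronglyMeasurable ?_
    exact ((measurable_id.pow_const 2).mul (measurable_deriv g)).norm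
  · filter_upwards [hbound] with σ hσ
    rwa [norm_norm]

end

end Pool.Agent.Helper49.H4
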