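import Pool.Agent.Helper72.TF.Core

/-!
# MP_e98778_an (full), module H4: combinatorics

A function of the darts which is almost a function of the vertices can be moved to a function of the
vertices; with integer increments it can be rounded.
-/

set_option autoImplicit false

open MeasureTheory Set Pool.Agent.Helper87.LS Pool.Agent.Helper79.G Pool.Agent.Helper72.TF

namespace Pool.Agent.Helper49.H4

noncomputable section

/-! ### Combinatorics -/

/-- Growing sets in a connected finite graph. -/
theorem reach {ι : Type*} [Fintype ι] (adj : ι → ι → Prop)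
    (hconn : ∀ s : Set ι, s.Nonempty → (∀ i ∈ s, ∀ j, adj i j → j ∈ s) → s = univ)
    (P : ℕ → ι → Prop) (hmono : ∀ k i, P k i → P (k + 1) i) (i0 : ι) (h0 : P 0 i0)
    (hstep : ∀ k i j, P k i → adj i j → P (k + 1) j) : ∀ i, P (Fintype.card ι) i := by
  classical
  by_contra hc
  push Not at hc
  obtain ⟨i1, hi1⟩ := hc
  have hmono2 : ∀ k l i, P k i → P (k + l) i := by
    intro k l i h
    induction l with
    | zero => exact h
    | succ l ih => exact hmono _ _ ih
  have key : ∀ k, k ≤ Fintype.card ι → k + 1 ≤ (Finset.univ.filter (P k)).card := by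
    intro k
    induction k with
    | zero =>
      intro _
      exact Finset.card_pos.2 ⟨i0, by simpa using h0⟩
    | succ k ih =>
      intro hk
      have h1 := ih (by omega)
      have hss : Finset.univ.filter (P k) ⊆ Finset.univ.filter (P (k + 1)) := by
        intro i hi
        simp only [Finset.mem_filter, Finset.mem_univ, true_and] at hi ⊢
        exact hmono _ _ hi
      have hne : Finset.univ.filter (P k) ≠ Finset.univ.filter (P (k + 1)) := by
        intro heq
        have hcl : {i | P k i} = univ := by
          refine hconn _ ?_ ?_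
          · obtain ⟨i, hi⟩ := Finset.card_pos.1 (lt_of_lt_of_le (Nat.succ_pos k) h1)
            exact ⟨i, by simpa using hi⟩
          · intro i hi j hij
            have h2 : j ∈ Finset.univ.filter (P (k + 1)) := by
              simpa using hstep k i j hi hij
            rw [← heq] at h2
            simpa using h2
        have h3 : P k i1 := by
          have : i1 ∈ {i | P k i} := by rw [hcl]; exact mem_univ _
          exact this
        obtain ⟨l, hl⟩ := Nat.exists_eq_add_of_le (show k ≤ Fintype.card ι by omega)
        exact hi1 (hl ▸ hmono2 k l i1 h3)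
      have h4 := Finset.card_lt_card (lt_of_le_of_ne hss hne)
      omega
  have h5 := key _ le_rfl
  have h6 : (Finset.univ.filter (P (Fintype.card ι))).card ≤ Fintype.card ι :=
    Finset.card_le_univ _
  omega

theorem int_eq_zero {n : ℤ} {x : ℝ} (hx : x < 1) (h : |(n : ℝ)| ≤ x) : n = 0 := by
  have h1 : |(n : ℝ)| < 1 := lt_of_le_of_lt h hx
  have h2 : |n| < 1 := by exact_mod_cast h1
  rwa [Int.abs_lt_one_iff] at h2

variable {H : Type} [Fintype H] {T : Tri H}

/-- Rounding: a function of darts with increments `m` along the triangles which is almost a function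
of the vertices. -/
theorem cob_of_almost (hconn : T.Conn) {m : H → ℝ} (hm : m ∈ CochZ T) (c : H → ℝ)
    (h1 : ∀ h, c (T.next h) - c h = m h) {δ : ℝ} (hδ : 0 ≤ δ)
    (hδ1 : (2 * Fintype.card H + 1) * δ < 1) (h2 : ∀ h, |c (T.opp h) - c h - m h| ≤ δ) :
    m ∈ Cob T := by
  classical
  have hopp : ∀ h, m (T.opp h) = -m h := hm.1.1
  have hint : ∀ h, ∃ n : ℤ, m h = n := hm.2
  by_cases hne : Nonempty H
  · obtain ⟨h0⟩ := hne
    have hall : ∀ h, ∃ n : ℤ, |c h - c h0 - n| ≤ (Fintype.card H : ℕ) * δ := by
      refine reach (fun i j => j = T.next i ∨ j = T.opp i) ?_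
        (fun k h => ∃ n : ℤ, |c h - c h0 - n| ≤ (k : ℝ) * δ) ?_ h0 ?_ ?_
      · intro s hs hcl
        exact hconn s hs fun h hh => ⟨hcl h hh _ (Or.inl rfl), hcl h hh _ (Or.inr rfl)⟩
      · rintro k h ⟨n, hn⟩
        refine ⟨n, hn.trans ?_⟩
        push_cast
        nlinarith
      · exact ⟨0, by simp⟩
      · rintro k h j ⟨n, hn⟩ (rfl | rfl)
        · obtain ⟨l, hl⟩ := hint h
          refine ⟨n + l, ?_⟩
          have h3 : c (T.next h) - c h0 - ((n + l : ℤ) : ℝ) = c h - c h0 - n := by
            have := h1 h
            push_cast
            rw [← hl]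
            linarith
          rw [h3]
          refine hn.trans ?_
          push_cast
          nlinarith
        · obtain ⟨l, hl⟩ := hint h
          refine ⟨n + l, ?_⟩
          have h3 : c (T.opp h) - c h0 - ((n + l : ℤ) : ℝ)
              = (c h - c h0 - n) + (c (T.opp h) - c h - m h) := by
            push_cast
            rw [← hl]
            ring
          rw [h3]
          refine (abs_add_le _ _).trans ?_
          have := h2 h
          push_cast
          linarith
    choose n hn using hall
    refine ⟨fun h => (n h : ℝ), ?_, ?_⟩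
    · intro h
      simp only
      obtain ⟨l, hl⟩ := hint h
      have h3 : n (T.next (T.opp h)) - n h = 0 := by
        refine int_eq_zero (x := (2 * Fintype.card H + 1) * δ) hδ1 ?_
        have e1 : ((n (T.next (T.opp h)) - n h : ℤ) : ℝ)
            = -(c (T.next (T.opp h)) - c h0 - n (T.next (T.opp h))) + (c h - c h0 - n h)
              + (c (T.opp h) - c h - m h) := by
          have h4 := h1 (T.opp h)
          rw [hopp h] at h4
          push_cast
          linarith
        rw [e1]
        have h5 := hn (T.next (T.opp h))
        have h6 := hn h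
        have h7 := h2 h
        calc |(-(c (T.next (T.opp h)) - c h0 - n (T.next (T.opp h))) + (c h - c h0 - n h)
              + (c (T.opp h) - c h - m h))|
            ≤ |(-(c (T.next (T.opp h)) - c h0 - n (T.next (T.opp h))) + (c h - c h0 - n h))|
              + |c (T.opp h) - c h - m h| := abs_add_le _ _
          _ ≤ |(-(c (T.next (T.opp h)) - c h0 - n (T.next (T.opp h))))| + |c h - c h0 - n h|
              + |c (T.opp h) - c h - m h| := by
              gcongr
              exact abs_add_le _ _
          _ ≤ (Fintype.card H : ℕ) * δ + (Fintype.card H : ℕ) * δ + δ := by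
              rw [abs_neg]
              gcongr
          _ = (2 * Fintype.card H + 1) * δ := by ring
      have : n (T.next (T.opp h)) = n h := by omega
      exact_mod_cast this
    · ext h
      change (n (T.next h) : ℝ) - n h = m h
      obtain ⟨l, hl⟩ := hint h
      have h3 : n (T.next h) - n h - l = 0 := by
        refine int_eq_zero (x := (2 * Fintype.card H + 1) * δ) hδ1 ?_
        have e1 : ((n (T.next h) - n h - l : ℤ) : ℝ)
            = -(c (T.next h) - c h0 - n (T.next h)) + (c h - c h0 - n h) := by
          have h4 := h1 h
          push_cast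
          rw [← hl]
          linarith
        rw [e1]
        have h5 := hn (T.next h)
        have h6 := hn h
        calc |(-(c (T.next h) - c h0 - n (T.next h)) + (c h - c h0 - n h))|
            ≤ |(-(c (T.next h) - c h0 - n (T.next h)))| + |c h - c h0 - n h| := abs_add_le _ _
          _ ≤ (Fintype.card H : ℕ) * δ + (Fintype.card H : ℕ) * δ := by
              rw [abs_neg]
              gcongr
          _ ≤ (2 * Fintype.card H + 1) * δ := by nlinarith
      have h8 : (n (T.next h) : ℝ) - n h - l = 0 := by exact_mod_cast h3
      rw [hl]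
      linarith
  · refine ⟨0, ?_, ?_⟩
    · exact (Vert T).zero_mem
    · ext h
      exact absurd ⟨h⟩ hne

/-- Moving a function of darts, with increments `x` along the triangles, which is almost a function
of the vertices, to a function of the vertices. -/
theorem vert_of_almost {x : H → ℝ} (hx : x ∈ Coch T) (c : H → ℝ)
    (h1 : ∀ h, c (T.next h) - c h = x h) {δ : ℝ} (h2 : ∀ h, |c (T.opp h) - c h - x h| ≤ δ) :
    ∃ b ∈ Vert T, ∀ h, |x h - dv T b h| ≤ 2 * (Fintype.card H + 1) * δ := by
  classical
  have hσ : ∀ h, |c (T.next (T.opp h)) - c h| ≤ δ := by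
    intro h
    have h3 := h1 (T.opp h)
    have h4 := h2 h
    rw [hx.1 h] at h3
    have e : c (T.next (T.opp h)) - c h = c (T.opp h) - c h - x h := by linarith
    rw [e]; exact h4
  set σ : Equiv.Perm H := T.opp.trans T.next with hσdef
  have hσa : ∀ h, σ h = T.next (T.opp h) := fun h => rfl
  have hpow : ∀ (i : ℕ) (h : H), |c ((σ ^ i) h) - c h| ≤ i * δ := by
    intro i h
    induction i with
    | zero => simp
    | succ i ih =>
      have h3 : (σ ^ (i + 1)) h = T.next (T.opp ((σ ^ i) h)) := by
        rw [pow_succ']; rfl
      rw [h3]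
      have h4 := hσ ((σ ^ i) h)
      have e : c (T.next (T.opp ((σ ^ i) h))) - c h
          = (c (T.next (T.opp ((σ ^ i) h))) - c ((σ ^ i) h)) + (c ((σ ^ i) h) - c h) := by ring
      rw [e]
      refine (abs_add_le _ _).trans ?_
      have h5 : ((i + 1 : ℕ) : ℝ) * δ = i * δ + δ := by push_cast; ring
      rw [h5]
      linarith
  let s : Setoid H := Equiv.Perm.SameCycle.setoid σ
  let rep : H → H := fun h => (Quotient.mk s h).out
  have hrep : ∀ h, σ.SameCycle (rep h) h := by
    intro h
    have : s.r (rep h) h := Quotient.exact (Quotient.out_eq (Quotient.mk s h))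
    exact this
  have hrepσ : ∀ h, rep (σ h) = rep h := by
    intro h
    have : Quotient.mk s (σ h) = Quotient.mk s h := Quotient.sound (by
      change σ.SameCycle (σ h) h
      exact Equiv.Perm.sameCycle_apply_left.2 (Equiv.Perm.SameCycle.refl _ _))
    simp only [rep, this]
  have hδ : ∀ h : H, 0 ≤ δ := fun h => (abs_nonneg _).trans (h2 h)
  have hb : ∀ h, |c h - c (rep h)| ≤ (Fintype.card H + 1) * δ := by
    intro h
    obtain ⟨i, -, hi, hi2⟩ := (hrep h).exists_pow_eq σ
    have h3 := hpow i (rep h)
    rw [hi2] at h3
    refine h3.trans ?_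
    have h4 : (i : ℝ) ≤ Fintype.card H + 1 := by
      have : i ≤ Fintype.card H + 1 := hi.trans (Nat.succ_le_succ (Finset.card_le_univ _))
      exact_mod_cast this
    exact mul_le_mul_of_nonneg_right h4 (hδ h)
  refine ⟨fun h => c (rep h), ?_, ?_⟩
  · intro h
    change c (rep (σ h)) = c (rep h)
    rw [hrepσ]
  · intro h
    change |x h - (c (rep (T.next h)) - c (rep h))| ≤ _
    have h3 := hb (T.next h)
    have h4 := hb h
    have e : x h - (c (rep (T.next h)) - c (rep h))
        = (c (T.next h) - c (rep (T.next h))) + -(c h - c (rep h)) := by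
      have := h1 h
      linarith
    rw [e]
    refine (abs_add_le _ _).trans ?_
    rw [abs_neg]
    linarith

end

end Pool.Agent.Helper49.H4
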