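import Pool.Agent.Helper49.H4.Comb
import Pool.Agent.Helper49.H4.Avg

/-!
# MP_e98778_an (full), module H4: the systole

On a triangulated surface with edges at most `K` and areas (doubled) at least `1 / K` the periods
modulo coboundaries are bounded by the Hodge norm (`periods_le`); on a connected surface an integer
cocycle which is not a coboundary has Hodge norm at least `(24 (N + 1)² K³)^{-1/2}`, `N` the number
of darts.

Proof: let `G_h` be the primitive of `x + df` on the triangle of `h`, `M_h` its mean over the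
triangle and `e_h` its mean over the edge. Then `M_h - M_{next h} = x h`, `e_h - e_{opp h} = x h`
and `|M_h - e_h|` is small, so `c = -M` is almost a function of the vertices with `dv c = x`.
-/

set_option autoImplicit false

open MeasureTheory Set Pool.Agent.Helper87.LS Pool.Agent.Helper79.G Pool.Agent.Helper72.TF

namespace Pool.Agent.Helper49.H4

noncomputable section

variable {H : Type} [Fintype H] {T : Tri H}

/-! ### The forms -/

/-- `u ↦ ⟨ω, u⟩`. -/
def dotL (ω : ℂ) : ℂ →L[ℝ] ℝ := ω.re • Complex.reCLM + ω.im • Complex.imCLM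

theorem dotL_apply (ω u : ℂ) : dotL ω u = dot ω u := by
  simp [dotL, dot]

theorem abs_dot_le (ω u : ℂ) : |dot ω u| ≤ ‖ω‖ * ‖u‖ := by
  have h : dot ω u = ((starRingEnd ℂ) ω * u).re := by
    simp [dot, Complex.mul_re]
  rw [h]
  calc |((starRingEnd ℂ) ω * u).re| ≤ ‖(starRingEnd ℂ) ω * u‖ := Complex.abs_re_le_norm _
    _ = ‖ω‖ * ‖u‖ := by rw [norm_mul, Complex.norm_conj]

theorem norm_dotL_le (ω : ℂ) : ‖dotL ω‖ ≤ ‖ω‖ :=
  ContinuousLinearMap.opNorm_le_bound _ (norm_nonneg _) fun u => by
    rw [dotL_apply, Real.norm_eq_abs]; exact abs_dot_le _ _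

theorem eq_dotL (l : ℂ →L[ℝ] ℝ) : l = dotL ⟨l 1, l Complex.I⟩ := by
  ext u
  have e : u = u.re • (1 : ℂ) + u.im • Complex.I := by
    apply Complex.ext <;> simp
  rw [dotL_apply]
  conv_lhs => rw [e]
  rw [map_add, map_smul, map_smul]
  simp only [dot, smul_eq_mul]
  ring

omit [Fintype H] in
theorem ar_pos (h : H) : 0 < ar T h := T.pos h

omit [Fintype H] in
theorem dot_omega (m : H → ℝ) (h : H) : dot (omega T m h) (T.vec h) = m h := by
  have hp := (ar_pos (T := T) h).ne'
  have e : omega T m h = ((1 / ar T h : ℝ) : ℂ) *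
      ((m (T.next h) : ℂ) * (Complex.I * T.vec h) - (m h : ℂ) * (Complex.I * T.vec (T.next h))) := by
    unfold omega; push_cast; ring
  rw [e]
  have hp' : cr (T.vec h) (T.vec (T.next h)) ≠ 0 := hp
  simp only [dot, ar, cr] at hp' ⊢
  simp only [Complex.mul_re, Complex.mul_im, Complex.ofReal_re, Complex.ofReal_im, Complex.sub_re,
    Complex.sub_im, Complex.I_re, Complex.I_im]
  field_simp
  ring

omit [Fintype H] in
theorem dot_omega_next (m : H → ℝ) (h : H) :
    dot (omega T m h) (T.vec (T.next h)) = m (T.next h) := by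
  have hp := (ar_pos (T := T) h).ne'
  have e : omega T m h = ((1 / ar T h : ℝ) : ℂ) *
      ((m (T.next h) : ℂ) * (Complex.I * T.vec h) - (m h : ℂ) * (Complex.I * T.vec (T.next h))) := by
    unfold omega; push_cast; ring
  rw [e]
  have hp' : cr (T.vec h) (T.vec (T.next h)) ≠ 0 := hp
  simp only [dot, ar, cr] at hp' ⊢
  simp only [Complex.mul_re, Complex.mul_im, Complex.ofReal_re, Complex.ofReal_im, Complex.sub_re,
    Complex.sub_im, Complex.I_re, Complex.I_im]
  field_simp
  ring

omit [Fintype H] in
/-- A vector is determined by its products with two independent vectors. -/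
theorem dot_ext' {v w a b : ℂ} (h : 0 < cr v w) (h1 : dot a v = dot b v) (h2 : dot a w = dot b w) :
    a = b := by
  simp only [dot, cr] at h h1 h2
  apply Complex.ext
  · have : (a.re - b.re) * (v.re * w.im - v.im * w.re) = 0 := by
      linear_combination w.im * h1 - v.im * h2
    rcases mul_eq_zero.1 this with h3 | h3
    · linarith
    · exact absurd h3 h.ne'
  · have : (a.im - b.im) * (v.re * w.im - v.im * w.re) = 0 := by
      linear_combination v.re * h2 - w.re * h1
    rcases mul_eq_zero.1 this with h3 | h3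
    · linarith
    · exact absurd h3 h.ne'

omit [Fintype H] in
theorem vec_prev (h : H) : T.vec (T.next (T.next h)) = -(T.vec h + T.vec (T.next h)) := by
  have := T.closed h
  linear_combination this

theorem dot_add' (a u v : ℂ) : dot a (u + v) = dot a u + dot a v := by
  simp [dot]; ring

theorem dot_sub' (a u v : ℂ) : dot a (u - v) = dot a u - dot a v := by
  simp [dot]; ring

theorem dot_neg' (a u : ℂ) : dot a (-u) = -dot a u := by
  simp [dot]; ring

theorem dot_mul' (a u : ℂ) (t : ℝ) : dot a (t * u) = t * dot a u := by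
  simp [dot]; ring

omit [Fintype H] in
theorem omega_next' {x : H → ℝ} (hx : x ∈ Coch T) (h : H) :
    omega T x (T.next h) = omega T x h := by
  refine dot_ext' (T.pos h) ?_ ?_
  · have h1 : dot (omega T x (T.next h)) (T.vec (T.next (T.next h))) = x (T.next (T.next h)) :=
      dot_omega_next x (T.next h)
    have h2 : dot (omega T x (T.next h)) (T.vec (T.next h)) = x (T.next h) := dot_omega x (T.next h)
    rw [vec_prev, dot_neg', dot_add', h2] at h1
    rw [dot_omega]
    have := hx.2 h
    linarith
  · rw [dot_omega_next, dot_omega]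

/-! ### Geometry of the triangle -/

omit [Fintype H] in
theorem Op_eq (h : H) : Op T h = OpT (T.vec h) (T.vec h + T.vec (T.next h)) := by
  ext z
  simp only [Op, OpT, Tri.Int, Tri.a0, Tri.a1, Tri.a2, Tri.prev, mem_setOf_eq, vec_prev,
    add_sub_cancel_left]

omit [Fintype H] in
theorem cr_vA (h : H) : cr (T.vec h) (T.vec h + T.vec (T.next h)) = ar T h := by
  simp only [ar, cr, Complex.add_re, Complex.add_im]; ring

omit [Fintype H] in
theorem cr_vA_pos (h : H) : 0 < cr (T.vec h) (T.vec h + T.vec (T.next h)) := by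
  rw [cr_vA]; exact ar_pos h

theorem cont_cr (v : ℂ) : Continuous fun z : ℂ => cr v z := by unfold cr; fun_prop

theorem isOpen_OpT (v A : ℂ) : IsOpen (OpT v A) := by
  refine (isOpen_lt continuous_const (cont_cr v)).inter
    ((isOpen_lt continuous_const ((cont_cr (A - v)).comp (continuous_id.sub continuous_const))).inter
    (isOpen_lt continuous_const (cont_cr (-A))))

omit [Fintype H] in
theorem isOpen_Op (h : H) : IsOpen (Op T h) := by
  rw [Op_eq]; exact isOpen_OpT _ _

omit [Fintype H] in
theorem Op_sub (h : H) : Op T h ⊆ Cl T h := fun _ hz => ⟨hz.1.le, hz.2.1.le, hz.2.2.le⟩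

theorem integrableOn_OpT {v A : ℂ} (h : 0 < cr v A) {F : ℂ → ℝ} (hF : Continuous F) :
    IntegrableOn F (OpT v A) := by
  have hsub : OpT v A ⊆ Metric.closedBall 0 (‖A‖ + (‖v‖ + ‖A‖)) := by
    rw [← image_phi h]
    rintro _ ⟨w, hw, rfl⟩
    rw [mem_closedBall_zero_iff]
    unfold phi
    refine (norm_add_le _ _).trans ?_
    have h1 : ‖(w.re : ℂ) * ((w.im : ℂ) * v - A)‖ ≤ 1 * (‖v‖ + ‖A‖) := by
      rw [norm_mul, Complex.norm_real, Real.norm_eq_abs, abs_of_pos hw.1]
      refine mul_le_mul hw.2.1.le ?_ (norm_nonneg _) zero_le_one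
      refine (norm_sub_le _ _).trans ?_
      rw [norm_mul, Complex.norm_real, Real.norm_eq_abs, abs_of_pos hw.2.2.1]
      have := mul_le_mul_of_nonneg_right hw.2.2.2.le (norm_nonneg v)
      linarith
    linarith
  exact (hF.continuousOn.integrableOn_compact (isCompact_closedBall _ _)).mono_set hsub

theorem vol_OpT {v A : ℂ} (h : 0 < cr v A) : (∫ _ in OpT v A, (1 : ℝ)) = cr v A / 2 := by
  rw [int_tri h (fun _ => (1 : ℝ))]
  have h1 : ∫ z in Sq, z.re * (1 : ℝ) = 1 / 2 := by
    rw [sq_fubini]
    · simp only [mul_one]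
      have : ∫ σ : ℝ, σ ∂mI = 1 / 2 := by
        unfold mI
        rw [← integral_Ioc_eq_integral_Ioo, ← intervalIntegral.integral_of_le zero_le_one,
          integral_id]
        norm_num
      simp only [this, integral_const, smul_eq_mul]
      unfold mI
      simp
    · have h2 : IntegrableOn (fun z : ℂ => z.re * 1) (Metric.closedBall 0 2) :=
        (by fun_prop : Continuous fun z : ℂ => z.re * 1).continuousOn.integrableOn_compact
          (isCompact_closedBall _ _)
      refine h2.mono_set fun z hz => ?_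
      rw [mem_closedBall_zero_iff]
      refine (Complex.norm_le_abs_re_add_abs_im z).trans ?_
      rw [abs_of_pos hz.1, abs_of_pos hz.2.2.1]
      linarith [hz.2.1, hz.2.2.2]
  rw [h1]
  ring

end

end Pool.Agent.Helper49.H4
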