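import Pool.Agent.Helper49.H4.Main

/-!
# MP_e98778_an (full), module H4: the periods are bounded by the Hodge norm; the systole
-/

set_option autoImplicit false

open MeasureTheory Set Pool.Agent.Helper87.LS Pool.Agent.Helper79.G Pool.Agent.Helper72.TF

namespace Pool.Agent.Helper49.H4

noncomputable section

variable {H : Type} {T : Tri H}

/-- The primitive of `x + df` on the closed triangle of `h`. -/
def Gf (T : Tri H) (x : H → ℝ) (f : H → ℂ → ℝ) (h : H) (z : ℂ) : ℝ :=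
  dot (omega T x h) z + f h z

/-- Its mean over the triangle. -/
def Mf (T : Tri H) (x : H → ℝ) (f : H → ℂ → ℝ) (h : H) : ℝ :=
  2 / ar T h * ∫ z in Op T h, Gf T x f h z

/-- Its mean over the edge. -/
def ef (T : Tri H) (x : H → ℝ) (f : H → ℂ → ℝ) (h : H) : ℝ :=
  ∫ t, Gf T x f h ((t : ℂ) * T.vec h) ∂mI

theorem exists_ext {f : H → ℂ → ℝ} (hf : Fn T f) (h : H) :
    ∃ C : NNReal, ∃ g : ℂ → ℝ, LipschitzWith C g ∧ ∀ z ∈ Cl T h, f h z = g z := by
  obtain ⟨C, hC⟩ := hf.lip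
  obtain ⟨g, hg, hgf⟩ := (hC h).extend_real
  exact ⟨C, g, hg, hgf⟩

theorem lip_G {C : NNReal} {g : ℂ → ℝ} (hg : LipschitzWith C g) (ω : ℂ) :
    LipschitzWith (‖dotL ω‖₊ + C) (fun z => dot ω z + g z) := by
  have h := (dotL ω).lipschitz.add hg
  have e : (fun z => dot ω z + g z) = fun z => dotL ω z + g z := by
    ext z; rw [dotL_apply]
  rw [e]; exact h

theorem integrableOn_Gf {x : H → ℝ} {f : H → ℂ → ℝ} (hf : Fn T f) (h : H) :
    IntegrableOn (Gf T x f h) (Op T h) := by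
  obtain ⟨C, g, hg, hgf⟩ := exists_ext hf h
  have h1 : IntegrableOn (fun z => dot (omega T x h) z + g z) (Op T h) := by
    rw [Op_eq]
    exact integrableOn_OpT (cr_vA_pos h) (lip_G hg _).continuous
  refine h1.congr_fun (fun z hz => ?_) (isOpen_Op h).measurableSet
  simp only [Gf, hgf z (Op_sub h hz)]

theorem integrableOn_const' (h : H) (c : ℝ) : IntegrableOn (fun _ => c) (Op T h) := by
  rw [Op_eq]
  exact integrableOn_OpT (cr_vA_pos h) continuous_const

theorem vol_Op (h : H) : (∫ _ in Op T h, (1 : ℝ)) = ar T h / 2 := by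
  rw [Op_eq, vol_OpT (cr_vA_pos h), cr_vA]

theorem ar_next (h : H) : ar T (T.next h) = ar T h := by
  simp only [ar, vec_prev, cr, Complex.neg_re, Complex.neg_im, Complex.add_re, Complex.add_im]
  ring

theorem pre_Op (h : H) : (fun z => z - T.vec h) ⁻¹' Op T (T.next h) = Op T h := by
  ext z
  simp only [Op, Tri.Int, Tri.a0, Tri.a1, Tri.a2, Tri.prev, mem_preimage, mem_setOf_eq, vec_prev,
    T.next3]
  have e1 : cr (-(T.vec h + T.vec (T.next h))) (z - T.vec h - T.vec (T.next h))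
      = cr (-(T.vec h + T.vec (T.next h))) z := by
    simp only [cr, Complex.neg_re, Complex.neg_im, Complex.add_re, Complex.add_im, Complex.sub_re,
      Complex.sub_im]
    ring
  have e2 : cr (T.vec h) (z - T.vec h) = cr (T.vec h) z := by
    simp only [cr, Complex.sub_re, Complex.sub_im]
    ring
  rw [e1, e2]
  tauto

theorem Mf_sub {x : H → ℝ} (hx : x ∈ Coch T) {f : H → ℂ → ℝ} (hf : Fn T f) (h : H) :
    Mf T x f h - Mf T x f (T.next h) = x h := by
  have h1 : ∫ z in Op T (T.next h), Gf T x f (T.next h) z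
      = ∫ z in Op T h, Gf T x f (T.next h) (z - T.vec h) := by
    rw [← pre_Op h]
    exact ((measurePreserving_sub_right volume (T.vec h)).setIntegral_preimage_emb
      (MeasurableEquiv.subRight (T.vec h)).measurableEmbedding _ _).symm
  have h2 : ∫ z in Op T h, Gf T x f (T.next h) (z - T.vec h)
      = ∫ z in Op T h, (Gf T x f h z - x h) := by
    refine setIntegral_congr_fun (isOpen_Op h).measurableSet fun z hz => ?_
    simp only [Gf, hf.rot h z (Op_sub h hz), omega_next' hx, dot_sub', dot_omega]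
    ring
  have h3 : ∫ z in Op T h, (Gf T x f h z - x h)
      = (∫ z in Op T h, Gf T x f h z) - x h * (ar T h / 2) := by
    rw [integral_sub (integrableOn_Gf hf h) (integrableOn_const' h (x h))]
    have h4 : (∫ _ in Op T h, x h) = x h * ∫ _ in Op T h, (1 : ℝ) := by
      rw [← integral_const_mul]; simp
    rw [h4, vol_Op]
  have hp := (ar_pos (T := T) h).ne'
  simp only [Mf]
  rw [ar_next, h1, h2, h3]
  field_simp
  ring

theorem mem_Cl_edge (h : H) {t : ℝ} (ht : t ∈ Icc (0 : ℝ) 1) : (t : ℂ) * T.vec h ∈ Cl T h := by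
  have hp := ar_pos (T := T) h
  simp only [Cl, Tri.a0, Tri.a1, Tri.a2, Tri.prev, mem_setOf_eq, vec_prev]
  have e0 : cr (T.vec h) ((t : ℂ) * T.vec h) = 0 := by
    simp only [cr, Complex.mul_re, Complex.mul_im, Complex.ofReal_re, Complex.ofReal_im]; ring
  have e1 : cr (T.vec (T.next h)) ((t : ℂ) * T.vec h - T.vec h) = (1 - t) * ar T h := by
    simp only [ar, cr, Complex.mul_re, Complex.mul_im, Complex.ofReal_re, Complex.ofReal_im,
      Complex.sub_re, Complex.sub_im]; ring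
  have e2 : cr (-(T.vec h + T.vec (T.next h))) ((t : ℂ) * T.vec h) = t * ar T h := by
    simp only [ar, cr, Complex.mul_re, Complex.mul_im, Complex.ofReal_re, Complex.ofReal_im,
      Complex.neg_re, Complex.neg_im, Complex.add_re, Complex.add_im]; ring
  rw [e0, e1, e2]
  exact ⟨le_rfl, mul_nonneg (by linarith [ht.2]) hp.le, mul_nonneg ht.1 hp.le⟩

theorem mI_eq (F : ℝ → ℝ) : ∫ t, F t ∂mI = ∫ t in (0 : ℝ)..1, F t := by
  unfold mI
  rw [← integral_Ioc_eq_integral_Ioo, ← intervalIntegral.integral_of_le zero_le_one]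

theorem ef_sub {x : H → ℝ} (hx : x ∈ Coch T) {f : H → ℂ → ℝ} (hf : Fn T f) (h : H) :
    ef T x f h - ef T x f (T.opp h) = x h := by
  obtain ⟨C, g, hg, hgf⟩ := exists_ext hf h
  have hgc := hg.continuous
  have h1 : ef T x f h = ∫ t in (0 : ℝ)..1, (t * x h + g (t * T.vec h)) := by
    unfold ef
    rw [mI_eq]
    refine intervalIntegral.integral_congr fun t ht => ?_
    rw [uIcc_of_le zero_le_one] at ht
    simp only [Gf, dot_mul', dot_omega, hgf _ (mem_Cl_edge h ht)]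
  have h2 : ef T x f (T.opp h) = ∫ t in (0 : ℝ)..1, (-((1 - t) * x h) + g (t * T.vec h)) := by
    unfold ef
    rw [mI_eq]
    have e := intervalIntegral.integral_comp_sub_left
      (fun t : ℝ => Gf T x f (T.opp h) ((t : ℂ) * T.vec (T.opp h))) (a := 0) (b := 1) 1
    rw [sub_self, sub_zero] at e
    rw [← e]
    refine intervalIntegral.integral_congr fun t ht => ?_
    rw [uIcc_of_le zero_le_one] at ht
    simp only [Gf, dot_mul', dot_omega, hx.1 h]
    have e3 : (((1 - t : ℝ) : ℂ)) * T.vec (T.opp h) = (t : ℂ) * T.vec h - T.vec h := by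
      rw [T.vec_opp]; push_cast; ring
    rw [e3, hf.edge h t ht, hgf _ (mem_Cl_edge h ht)]
    ring
  have i1 : IntervalIntegrable (fun t : ℝ => t * x h + g (t * T.vec h)) volume 0 1 :=
    Continuous.intervalIntegrable (by fun_prop) _ _
  have i2 : IntervalIntegrable (fun t : ℝ => -((1 - t) * x h) + g (t * T.vec h)) volume 0 1 :=
    Continuous.intervalIntegrable (by fun_prop) _ _
  rw [h1, h2, ← intervalIntegral.integral_sub i1 i2]
  have e4 : (∫ t in (0 : ℝ)..1, (t * x h + g (t * T.vec h))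
      - (-((1 - t) * x h) + g (t * T.vec h))) = ∫ _ in (0 : ℝ)..1, x h := by
    congr 1; ext t; ring
  rw [e4]
  simp

/-! ### The estimate -/

/-- Cauchy-Schwarz. -/
theorem cs {s : Set ℂ} {N : ℂ → ℝ} (hN : IntegrableOn N s) (hN2 : IntegrableOn (fun z => N z ^ 2) s)
    (hc : IntegrableOn (fun _ => (1 : ℝ)) s) {V : ℝ} (hV : 0 < V) (hsV : (∫ _ in s, (1 : ℝ)) = V) :
    (∫ z in s, N z) ^ 2 ≤ V * ∫ z in s, N z ^ 2 := by
  set m := (∫ z in s, N z) / V with hm
  have h1 : 0 ≤ ∫ z in s, (N z - m) ^ 2 := integral_nonneg fun z => sq_nonneg _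
  have h2 : ∫ z in s, (N z - m) ^ 2
      = (∫ z in s, N z ^ 2) - 2 * m * (∫ z in s, N z) + m ^ 2 * V := by
    have e : ∀ z, (N z - m) ^ 2 = N z ^ 2 - 2 * m * N z + m ^ 2 * 1 := by intro z; ring
    have i2 : IntegrableOn (fun z => 2 * m * N z) s := hN.const_mul (2 * m)
    have i1 : IntegrableOn (fun z => N z ^ 2 - 2 * m * N z) s := hN2.sub i2
    have i3 : IntegrableOn (fun _ : ℂ => m ^ 2 * (1 : ℝ)) s := hc.const_mul (m ^ 2)
    simp only [e]
    rw [integral_add i1 i3, integral_sub hN2 i2, integral_const_mul, integral_const_mul, hsV]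
  rw [h2] at h1
  have h3 : (∫ z in s, N z) = m * V := by rw [hm]; field_simp
  rw [h3] at h1 ⊢
  nlinarith

theorem measurable_N (ω : ℂ) (f : ℂ → ℝ) : Measurable fun z => ‖ω + grad f z‖ := by
  have h1 : Measurable fun z => fderiv ℝ f z 1 := measurable_fderiv_apply_const ℝ f 1
  have h2 : Measurable fun z => fderiv ℝ f z Complex.I := measurable_fderiv_apply_const ℝ f Complex.I
  have e : (fun z => ‖ω + grad f z‖)
      = fun z => ‖ω + ((fderiv ℝ f z 1 : ℝ) + (fderiv ℝ f z Complex.I : ℝ) * Complex.I : ℂ)‖ := by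
    ext z
    congr 2
    apply Complex.ext <;> simp [grad]
  rw [e]
  fun_prop

theorem fderiv_G {f g : ℂ → ℝ} {s : Set ℂ} (hs : IsOpen s) (hfg : ∀ z ∈ s, f z = g z) (ω : ℂ)
    {z : ℂ} (hz : z ∈ s) (hd : DifferentiableAt ℝ g z) :
    ‖fderiv ℝ (fun z => dot ω z + g z) z‖ ≤ ‖ω + grad f z‖ := by
  have h1 : fderiv ℝ f z = fderiv ℝ g z := by
    refine Filter.EventuallyEq.fderiv_eq ?_
    filter_upwards [hs.mem_nhds hz] with w hw using hfg w hw
  have h2 : fderiv ℝ (fun z => dot ω z + g z) z = dotL (ω + grad f z) := by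
    have e : (fun z => dot ω z + g z) = fun z => dotL ω z + g z := by
      ext z; rw [dotL_apply]
    rw [e]
    have h3 : HasFDerivAt (fun z => dotL ω z + g z) (dotL ω + fderiv ℝ g z) z :=
      (dotL ω).hasFDerivAt.add hd.hasFDerivAt
    rw [h3.fderiv, ← h1, eq_dotL (fderiv ℝ f z)]
    ext u
    simp only [ContinuousLinearMap.add_apply, dotL_apply, dot, grad, Complex.add_re,
      Complex.add_im]
    ring
  rw [h2]
  exact norm_dotL_le _

theorem bdd_N {f g : ℂ → ℝ} {s : Set ℂ} (hs : IsOpen s) (hfg : ∀ z ∈ s, f z = g z) (ω : ℂ)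
    {C : NNReal} (hg : LipschitzWith C g) {z : ℂ} (hz : z ∈ s) :
    ‖ω + grad f z‖ ≤ ‖ω‖ + 2 * C := by
  have h1 : fderiv ℝ f z = fderiv ℝ g z := by
    refine Filter.EventuallyEq.fderiv_eq ?_
    filter_upwards [hs.mem_nhds hz] with w hw using hfg w hw
  have h2 : ‖fderiv ℝ f z‖ ≤ C := by rw [h1]; exact norm_fderiv_le_of_lipschitz ℝ hg
  refine (norm_add_le _ _).trans ?_
  have h3 : ‖grad f z‖ ≤ |(grad f z).re| + |(grad f z).im| := Complex.norm_le_abs_re_add_abs_im _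
  have h4 : |(grad f z).re| ≤ C := by
    have := (fderiv ℝ f z).le_opNorm 1
    rw [norm_one, mul_one] at this
    exact this.trans h2
  have h5 : |(grad f z).im| ≤ C := by
    have := (fderiv ℝ f z).le_opNorm Complex.I
    rw [Complex.norm_I, mul_one] at this
    exact this.trans h2
  linarith

variable [Fintype H]

theorem en_nonneg (x : H → ℝ) (f : H → ℂ → ℝ) : 0 ≤ en T x f := by
  unfold en
  refine div_nonneg (Finset.sum_nonneg fun h _ => integral_nonneg fun z => sq_nonneg _) (by norm_num)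

theorem part_le (x : H → ℝ) (f : H → ℂ → ℝ) (h : H) :
    ∫ z in Op T h, ‖omega T x h + grad (f h) z‖ ^ 2 ≤ 3 * en T x f := by
  have h1 := Finset.single_le_sum
    (f := fun h => ∫ z in Op T h, ‖omega T x h + grad (f h) z‖ ^ 2)
    (fun h _ => integral_nonneg fun z => sq_nonneg _) (Finset.mem_univ h)
  unfold en
  linarith

theorem ef_Mf {x : H → ℝ} {f : H → ℂ → ℝ} (hf : Fn T f) {K : ℝ} (hK0 : 0 < K)
    (hK : ∀ h, ‖T.vec h‖ ≤ K) (hK2 : ∀ h, 1 / K ≤ ar T h) (h : H) :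
    |ef T x f h - Mf T x f h| ≤ Real.sqrt (3 / 2 * K ^ 3 * en T x f) := by
  obtain ⟨C, g, hg, hgf⟩ := exists_ext hf h
  have hp := ar_pos (T := T) h
  have hgf' : ∀ z ∈ Op T h, f h z = g z := fun z hz => hgf z (Op_sub h hz)
  have hG := lip_G hg (omega T x h)
  have e1 : ef T x f h = ∫ t, (fun z => dot (omega T x h) z + g z) ((t : ℂ) * T.vec h) ∂mI := by
    unfold ef
    rw [mI_eq, mI_eq]
    refine intervalIntegral.integral_congr fun t ht => ?_
    rw [uIcc_of_le zero_le_one] at ht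
    simp only [Gf, hgf _ (mem_Cl_edge h ht)]
  have e2 : Mf T x f h = 2 / cr (T.vec h) (T.vec h + T.vec (T.next h))
      * ∫ z in OpT (T.vec h) (T.vec h + T.vec (T.next h)),
        (fun z => dot (omega T x h) z + g z) z := by
    rw [cr_vA, ← Op_eq]
    unfold Mf
    congr 1
    refine setIntegral_congr_fun (isOpen_Op h).measurableSet fun z hz => ?_
    simp only [Gf, hgf' z hz]
  have hL1 : ‖T.vec h + T.vec (T.next h)‖ ≤ K := by
    have := hK (T.next (T.next h))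
    rwa [vec_prev, norm_neg] at this
  have hL2 : ‖T.vec h - (T.vec h + T.vec (T.next h))‖ ≤ K := by
    rw [sub_add_cancel_left, norm_neg]; exact hK _
  have key := edge_tri (cr_vA_pos h) hG hL1 hL2
  rw [← e1, ← e2, cr_vA, ← Op_eq] at key
  -- the integral of the gradient
  set N : ℂ → ℝ := fun z => ‖omega T x h + grad (f h) z‖ with hNdef
  have hNm : Measurable N := measurable_N _ _
  have hb : ∀ z ∈ Op T h, N z ≤ ‖omega T x h‖ + 2 * C := fun z hz =>
    bdd_N (isOpen_Op h) hgf' _ hg hz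
  have hc1 : IntegrableOn (fun _ => (1 : ℝ)) (Op T h) := integrableOn_const' h 1
  have hNi : IntegrableOn N (Op T h) := by
    refine Integrable.mono' (integrableOn_const' h (‖omega T x h‖ + 2 * C))
      hNm.aestronglyMeasurable ?_
    filter_upwards [ae_restrict_mem (isOpen_Op h).measurableSet] with z hz
    rw [Real.norm_eq_abs, abs_of_nonneg (norm_nonneg _)]
    exact hb z hz
  have hN2i : IntegrableOn (fun z => N z ^ 2) (Op T h) := by
    refine Integrable.mono' (integrableOn_const' h ((‖omega T x h‖ + 2 * C) ^ 2))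
      (hNm.pow_const 2).aestronglyMeasurable ?_
    filter_upwards [ae_restrict_mem (isOpen_Op h).measurableSet] with z hz
    rw [Real.norm_eq_abs, abs_of_nonneg (sq_nonneg _)]
    exact pow_le_pow_left₀ (norm_nonneg _) (hb z hz) 2
  have h1 : ∫ z in Op T h, ‖fderiv ℝ (fun z => dot (omega T x h) z + g z) z‖
      ≤ ∫ z in Op T h, N z := by
    refine integral_mono_of_nonneg (Filter.Eventually.of_forall fun z => norm_nonneg _) hNi ?_
    filter_upwards [ae_restrict_mem (isOpen_Op h).measurableSet,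
      ae_restrict_of_ae hg.ae_differentiableAt] with z hz hzd
    exact fderiv_G (isOpen_Op h) hgf' _ hz hzd
  have h2 := cs hNi hN2i hc1 (half_pos hp) (vol_Op h)
  have h3 := part_le (T := T) x f h
  have hN0 : 0 ≤ ∫ z in Op T h, N z := integral_nonneg fun z => norm_nonneg _
  refine Real.le_sqrt_of_sq_le ?_
  have h4 : |ef T x f h - Mf T x f h| ≤ K / ar T h * ∫ z in Op T h, N z :=
    key.trans (mul_le_mul_of_nonneg_left h1 (by positivity))
  have h5 : |ef T x f h - Mf T x f h| ^ 2 ≤ (K / ar T h * ∫ z in Op T h, N z) ^ 2 :=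
    pow_le_pow_left₀ (abs_nonneg _) h4 2
  refine h5.trans ?_
  have h6 : (K / ar T h * ∫ z in Op T h, N z) ^ 2
      ≤ (K / ar T h) ^ 2 * (ar T h / 2 * (3 * en T x f)) := by
    rw [mul_pow]
    refine mul_le_mul_of_nonneg_left (h2.trans ?_) (sq_nonneg _)
    exact mul_le_mul_of_nonneg_left h3 (half_pos hp).le
  refine h6.trans ?_
  have h7 : (K / ar T h) ^ 2 * (ar T h / 2 * (3 * en T x f))
      = 3 / 2 * K ^ 2 * (1 / ar T h) * en T x f := by
    field_simp
  rw [h7]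
  have h8 : 1 / ar T h ≤ K := by
    rw [div_le_iff₀ hp]
    have := hK2 h
    rw [div_le_iff₀ hK0] at this
    linarith
  have h9 := en_nonneg (T := T) x f
  have h10 : 3 / 2 * K ^ 2 * (1 / ar T h) ≤ 3 / 2 * K ^ 2 * K := by gcongr
  calc 3 / 2 * K ^ 2 * (1 / ar T h) * en T x f ≤ 3 / 2 * K ^ 2 * K * en T x f := by gcongr
    _ = 3 / 2 * K ^ 3 * en T x f := by ring

/-- A function of the darts with increments `x` along the triangles which is almost a function of
the vertices. -/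
theorem exists_c {x : H → ℝ} (hx : x ∈ Coch T) {f : H → ℂ → ℝ} (hf : Fn T f) {K : ℝ} (hK0 : 0 < K)
    (hK : ∀ h, ‖T.vec h‖ ≤ K) (hK2 : ∀ h, 1 / K ≤ ar T h) :
    ∃ c : H → ℝ, (∀ h, c (T.next h) - c h = x h) ∧
      ∀ h, |c (T.opp h) - c h - x h| ≤ 2 * Real.sqrt (3 / 2 * K ^ 3 * en T x f) := by
  refine ⟨fun h => -Mf T x f h, fun h => ?_, fun h => ?_⟩
  · have := Mf_sub hx hf h
    linarith
  · have h1 := ef_Mf (x := x) hf hK0 hK hK2 h
    have h2 := ef_Mf (x := x) hf hK0 hK hK2 (T.opp h)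
    have h3 := ef_sub hx hf h
    have e : -Mf T x f (T.opp h) - -Mf T x f h - x h
        = (ef T x f (T.opp h) - Mf T x f (T.opp h)) + -(ef T x f h - Mf T x f h) := by
      linarith
    rw [e]
    refine (abs_add_le _ _).trans ?_
    rw [abs_neg]
    linarith

instance : Nonempty {f : H → ℂ → ℝ // Fn T f} :=
  ⟨⟨fun _ _ => 0, ⟨⟨0, fun _ => LipschitzWith.const 0 |>.lipschitzOnWith⟩, fun _ _ _ => rfl,
    fun _ _ _ => rfl⟩⟩⟩

/-- The systole. -/
theorem systole (hT : T.Conn) {K : ℝ} (hK0 : 0 < K) (hK : ∀ h, ‖T.vec h‖ ≤ K)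
    (hK2 : ∀ h, 1 / K ≤ ar T h) {m : H → ℝ} (hm : m ∈ CochZ T) (hm2 : m ∉ Cob T) :
    1 / (24 * (Fintype.card H + 1) ^ 2 * K ^ 3) ≤ hn2 T m := by
  refine le_ciInf fun f => ?_
  by_contra hc
  push Not at hc
  apply hm2
  obtain ⟨c, h1, h2⟩ := exists_c hm.1 f.2 hK0 hK hK2
  refine cob_of_almost hT hm c h1 (by positivity) ?_ h2
  have h0 := en_nonneg (T := T) m f.1
  have h3 : (2 * (Fintype.card H + 1) * (2 * Real.sqrt (3 / 2 * K ^ 3 * en T m f.1))) ^ 2 < 1 := by
    have e : (2 * (Fintype.card H + 1) * (2 * Real.sqrt (3 / 2 * K ^ 3 * en T m f.1))) ^ 2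
        = 24 * ((Fintype.card H : ℝ) + 1) ^ 2 * K ^ 3 * en T m f.1 := by
      rw [mul_pow, mul_pow, mul_pow, Real.sq_sqrt (by positivity)]
      ring
    rw [e]
    rw [lt_div_iff₀ (by positivity)] at hc
    linarith
  have h4 : 2 * ((Fintype.card H : ℝ) + 1) * (2 * Real.sqrt (3 / 2 * K ^ 3 * en T m f.1)) < 1 := by
    by_contra h5
    push Not at h5
    have := pow_le_pow_left₀ zero_le_one h5 2
    linarith
  have h5 : 0 ≤ 2 * Real.sqrt (3 / 2 * K ^ 3 * en T m f.1) := by positivity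
  nlinarith

theorem hn2_nonneg' (x : H → ℝ) : 0 ≤ hn2 T x := Real.iInf_nonneg fun f => en_nonneg x f.1

/-- The periods modulo coboundaries are bounded by the Hodge norm. -/
theorem periods_le_tri {K : ℝ} (hK0 : 0 < K) (hK : ∀ h, ‖T.vec h‖ ≤ K)
    (hK2 : ∀ h, 1 / K ≤ ar T h) {x : H → ℝ} (hx : x ∈ Coch T) :
    ∃ b ∈ Vert T, ∀ h, |x h - dv T b h|
      ≤ 4 * (Fintype.card H + 1) * Real.sqrt (6 * K ^ 3 * hn2 T x) := by
  have hall : ∀ f : {f : H → ℂ → ℝ // Fn T f}, ∃ b ∈ Vert T, ∀ h, |x h - dv T b h|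
      ≤ 4 * (Fintype.card H + 1) * Real.sqrt (3 / 2 * K ^ 3 * en T x f.1) := by
    intro f
    obtain ⟨c, h1, h2⟩ := exists_c hx f.2 hK0 hK hK2
    obtain ⟨b, hb, hb2⟩ := vert_of_almost hx c h1 h2
    exact ⟨b, hb, fun h => (hb2 h).trans (by linarith)⟩
  have hbdd : BddBelow (Set.range fun f : {f : H → ℂ → ℝ // Fn T f} => en T x f.1) :=
    ⟨0, by rintro _ ⟨f, rfl⟩; exact en_nonneg x f.1⟩
  rcases (hn2_nonneg' (T := T) x).lt_or_eq with h0 | h0
  · have h1 : hn2 T x < 4 * hn2 T x := by linarith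
    obtain ⟨f, hf⟩ := exists_lt_of_ciInf_lt (show ⨅ f : {f : H → ℂ → ℝ // Fn T f}, en T x f.1
      < 4 * hn2 T x from h1)
    obtain ⟨b, hb, hb2⟩ := hall f
    refine ⟨b, hb, fun h => (hb2 h).trans ?_⟩
    refine mul_le_mul_of_nonneg_left (Real.sqrt_le_sqrt ?_) (by positivity)
    have h2 : 3 / 2 * K ^ 3 * en T x f.1 ≤ 3 / 2 * K ^ 3 * (4 * hn2 T x) :=
      mul_le_mul_of_nonneg_left hf.le (by positivity)
    linarith
  · have hcl : IsClosed ((Cob T : Submodule ℝ (H → ℝ)) : Set (H → ℝ)) :=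
      Submodule.closed_of_finiteDimensional _
    have hmem : x ∈ (Cob T : Set (H → ℝ)) := by
      rw [← hcl.closure_eq, Metric.mem_closure_iff]
      intro ε hε
      set δ := (ε / (8 * ((Fintype.card H : ℝ) + 1))) ^ 2 / (3 / 2 * K ^ 3) with hδ
      have hδ0 : 0 < δ := by positivity
      obtain ⟨f, hf⟩ := exists_lt_of_ciInf_lt (show ⨅ f : {f : H → ℂ → ℝ // Fn T f}, en T x f.1
        < δ by rw [show (⨅ f : {f : H → ℂ → ℝ // Fn T f}, en T x f.1) = 0 from h0.symm]; exact hδ0)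
      obtain ⟨b, hb, hb2⟩ := hall f
      refine ⟨dv T b, ⟨b, hb, rfl⟩, ?_⟩
      have h3 : Real.sqrt (3 / 2 * K ^ 3 * en T x f.1) ≤ ε / (8 * ((Fintype.card H : ℝ) + 1)) := by
        refine Real.sqrt_le_iff.2 ⟨by positivity, ?_⟩
        have h4 : 3 / 2 * K ^ 3 * en T x f.1 ≤ 3 / 2 * K ^ 3 * δ := by
          gcongr
        refine h4.trans (le_of_eq ?_)
        rw [hδ]
        field_simp
      refine lt_of_le_of_lt ((dist_pi_le_iff (by positivity : (0 : ℝ) ≤ ε / 2)).2 fun h => ?_)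
        (half_lt_self hε)
      rw [Real.dist_eq]
      refine (hb2 h).trans ?_
      calc 4 * ((Fintype.card H : ℝ) + 1) * Real.sqrt (3 / 2 * K ^ 3 * en T x f.1)
          ≤ 4 * ((Fintype.card H : ℝ) + 1) * (ε / (8 * ((Fintype.card H : ℝ) + 1))) := by gcongr
        _ = ε / 2 := by field_simp; ring
    obtain ⟨b, hb, hb2⟩ := hmem
    refine ⟨b, hb, fun h => ?_⟩
    rw [hb2, sub_self, abs_zero]
    positivity

/-- The form of `Helper72/TF/Skel.lean`. -/
theorem periods_le (n : ℕ) : ∃ C : ℝ, 0 < C ∧ ∀ K : ℝ, 1 ≤ K → ∀ Y : Surf, Y.n = n →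
    (∀ e, ‖Y.vec e‖ ≤ K) → (∀ i, 1 / K ≤ Y.area2 i) →
      ∀ x ∈ Coch (ofSurf Y), ∃ b ∈ Vert (ofSurf Y), ∀ h,
        |x h - dv (ofSurf Y) b h| ≤ C * K ^ C * Real.sqrt (hn2 (ofSurf Y) x) := by
  refine ⟨10 * (3 * n + 1), by positivity, fun K hK1 Y hY h1 h2 x hx => ?_⟩
  have hK0 : 0 < K := by linarith
  have har : ∀ h, ar (ofSurf Y) h = Y.area2 h.1 := by
    rintro ⟨i, k⟩
    exact Y.cr_vec_succ i k
  obtain ⟨b, hb, hb2⟩ := periods_le_tri (T := ofSurf Y) hK0 (fun h => h1 h)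
    (fun h => by rw [har]; exact h2 h.1) hx
  refine ⟨b, hb, fun h => (hb2 h).trans ?_⟩
  have hcard : (Fintype.card (Fin Y.n × Fin 3) : ℝ) = 3 * n := by
    rw [Fintype.card_prod, Fintype.card_fin, Fintype.card_fin, hY]
    push_cast; ring
  rw [hcard]
  have h0 := hn2_nonneg' (T := ofSurf Y) x
  rw [Real.sqrt_mul (by positivity)]
  have h3 : Real.sqrt (6 * K ^ 3) ≤ 5 / 2 * K ^ (2 : ℕ) := by
    refine Real.sqrt_le_iff.2 ⟨by positivity, ?_⟩
    have : K ^ 3 ≤ K ^ 4 := pow_le_pow_right₀ hK1 (by norm_num)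
    nlinarith [pow_pos hK0 3]
  have h4 : K ^ (2 : ℕ) ≤ K ^ (10 * (3 * (n : ℝ) + 1)) := by
    rw [← Real.rpow_natCast]
    refine Real.rpow_le_rpow_of_exponent_le hK1 ?_
    have : (0 : ℝ) ≤ n := Nat.cast_nonneg n
    push_cast
    linarith
  calc 4 * (3 * (n : ℝ) + 1) * (Real.sqrt (6 * K ^ 3) * Real.sqrt (hn2 (ofSurf Y) x))
      ≤ 4 * (3 * (n : ℝ) + 1) * ((5 / 2 * K ^ (10 * (3 * (n : ℝ) + 1)))
        * Real.sqrt (hn2 (ofSurf Y) x)) := by
        gcongr
        exact h3.trans (by gcongr)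
    _ = 10 * (3 * n + 1) * K ^ (10 * (3 * (n : ℝ) + 1)) * Real.sqrt (hn2 (ofSurf Y) x) := by ring

/-- The systole for the surfaces of helper87. -/
theorem systole_surf (n : ℕ) (K : ℝ) (hK0 : 0 < K) : ∃ r : ℝ, 0 < r ∧ ∀ Y : Surf, Y.n = n →
    Connected Y → (∀ e, ‖Y.vec e‖ ≤ K) → (∀ i, 1 / K ≤ Y.area2 i) →
      ∀ m ∈ CochZ (ofSurf Y), m ∉ Cob (ofSurf Y) → r ≤ hn2 (ofSurf Y) m := by
  refine ⟨1 / (24 * (3 * n + 1) ^ 2 * K ^ 3), by positivity, fun Y hY hc h1 h2 m hm hm2 => ?_⟩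
  have har : ∀ h, ar (ofSurf Y) h = Y.area2 h.1 := by
    rintro ⟨i, k⟩
    exact Y.cr_vec_succ i k
  have h3 := systole (T := ofSurf Y) hc hK0 (fun h => h1 h) (fun h => by rw [har]; exact h2 h.1)
    hm hm2
  have hcard : (Fintype.card (Fin Y.n × Fin 3) : ℝ) = 3 * n := by
    rw [Fintype.card_prod, Fintype.card_fin, Fintype.card_fin, hY]
    push_cast; ring
  rwa [hcard] at h3

end

end Pool.Agent.Helper49.H4
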